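import Pool.Agent.U762.JF.Win

set_option autoImplicit false

/-!
# Descending the chain of Jensen circles for `FF`
-/

namespace Pool.Agent.U762.JF

open Complex Filter Topology MeasureTheory Set
open Pool.Agent.H24R2.JP (XX HH Om FF SB1 SPar SGood Par SCircle SChain)

/-- one step -/
lemma step {w z : ℂ} {t : ℝ} (ht : 1 ≤ t) (hw : w.re = -t ^ 2) (hz : z ∈ Par)
    (h : ‖w - (z.re : ℂ)‖ ≤ |z.im|) : ∃ s : ℝ, 0 ≤ s ∧ z.re = -s ^ 2 ∧ |t - s| ≤ 1 := by
  have hz' : z.re + z.im ^ 2 ≤ 1 / 4 := hz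
  have h1 : |w.re - z.re| ≤ |z.im| := by
    have := Complex.abs_re_le_norm (w - (z.re : ℂ))
    simp only [Complex.sub_re, Complex.ofReal_re] at this
    exact this.trans h
  have h2 : (w.re - z.re) ^ 2 ≤ 1 / 4 - z.re := by
    have : (w.re - z.re) ^ 2 ≤ z.im ^ 2 := sq_le_sq.2 h1
    linarith
  rw [hw] at h2
  have h3 : z.re ≤ 0 := by
    by_contra hc
    push Not at hc
    nlinarith [sq_nonneg (t ^ 2 - 1), mul_pos hc hc]
  refine ⟨Real.sqrt (-z.re), Real.sqrt_nonneg _, ?_, ?_⟩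
  · rw [Real.sq_sqrt (by linarith)]; ring
  · set s := Real.sqrt (-z.re) with hs
    have hs0 : 0 ≤ s := Real.sqrt_nonneg _
    have hs2 : z.re = -s ^ 2 := by rw [hs, Real.sq_sqrt (by linarith)]; ring
    rw [hs2] at h2
    have h4 : (t ^ 2 - s ^ 2) ^ 2 ≤ (s + 1 / 2) ^ 2 := by nlinarith
    have h5 : |t ^ 2 - s ^ 2| ≤ s + 1 / 2 := abs_le_of_sq_le_sq h4 (by linarith)
    have h6 : |t - s| * (t + s) ≤ s + 1 / 2 := by
      have : |t - s| * (t + s) = |t ^ 2 - s ^ 2| := by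
        have h7 : t ^ 2 - s ^ 2 = (t - s) * (t + s) := by ring
        rw [h7, abs_mul, abs_of_nonneg (by linarith : 0 ≤ t + s)]
      rw [this]; exact h5
    by_contra hc
    push Not at hc
    nlinarith

lemma desc (hp : SPar) (hg : SGood) (hc : SCircle) (m : ℕ) : ∀ (k : ℕ) (w : ℂ) (t : ℝ), w.im ≠ 0 →
    iteratedDeriv (m + k) FF w = 0 → (k : ℝ) + 1 ≤ t → w.re = -t ^ 2 →
    ∃ (z : ℂ) (s : ℝ), z.im ≠ 0 ∧ iteratedDeriv m FF z = 0 ∧ 0 ≤ s ∧ z.re = -s ^ 2 ∧ |t - s| ≤ k := by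
  intro k
  induction k with
  | zero => intro w t h1 h2 h3 h4; exact ⟨w, t, h1, h2, by linarith [Nat.cast_nonneg (α := ℝ) 0], h4, by simp⟩
  | succ k ih =>
    intro w t h1 h2 h3 h4
    have hk : (0 : ℝ) ≤ k := Nat.cast_nonneg k
    push_cast at h3
    obtain ⟨z1, g1, g2, g3⟩ := hc FF hg (m + k) w h1 h2
    obtain ⟨s1, j1, j2, j3⟩ := step (by linarith : (1:ℝ) ≤ t) h4 (hp FF hg (m + k) z1 g2) g3
    have j3' := abs_le.1 j3
    obtain ⟨z, s, i1, i2, i3, i4, i5⟩ := ih z1 s1 g1 g2 (by linarith) j2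
    refine ⟨z, s, i1, i2, i3, i4, ?_⟩
    have : |t - s| ≤ |t - s1| + |s1 - s| := abs_sub_le _ _ _
    push_cast
    linarith

/-- All zeros of `FF^(n)` up to `exp (2 κ n)` are real. -/
def UpF (κ : ℝ) : Prop := ∃ N : ℕ, ∀ n : ℕ, N ≤ n → ∀ w : ℂ, ‖w‖ ≤ Real.exp (2 * κ * n) →
  iteratedDeriv n FF w = 0 → w.im = 0

theorem upF (hp : SPar) (hg : SGood) (hcir : SCircle) (hch : SChain) {r0 κ : ℝ} (hr0 : 0 < r0)
    (hr1 : r0 ≤ 1) (hNB : NoBadF r0) (hκ : κ * r0 < 2) : UpF κ := by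
  obtain ⟨N0, hN0⟩ := hch
  obtain ⟨T0, hT0, hNB⟩ := hNB
  by_cases hk0 : κ ≤ 1 / 25
  · refine ⟨N0, fun n hn w hw hw0 => ?_⟩
    by_contra him
    have h1 := hN0 n hn w him hw0
    have h2 : Real.exp (2 * κ * n) ≤ Real.exp (n / 5) := by
      apply Real.exp_le_exp.2
      have : (0 : ℝ) ≤ n := Nat.cast_nonneg n
      nlinarith
    linarith
  push Not at hk0
  set p : ℝ := r0 * κ / 2 with hp'
  have hp0 : 0 < p := by positivity
  have hp1 : p < 1 := by rw [hp']; linarith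
  set δ : ℝ := (1 - p) / 2 with hδ
  have hδ0 : 0 < δ := by rw [hδ]; linarith
  have hδ1 : δ ≤ 1 / 2 := by rw [hδ]; linarith
  have hδp : (1 + δ) * p < 1 := by
    rw [hδ]
    nlinarith
  refine ⟨max N0 (max 5000 (max ⌈2 * T0⌉₊ (max ⌈25 / δ⌉₊ ⌈100 + 100 / r0⌉₊))), ?_⟩
  intro n hn
  have hn0 : N0 ≤ n := le_trans (le_max_left _ _) hn
  have hn' := le_trans (le_max_right _ _) hn
  have hn1 : 5000 ≤ n := le_trans (le_max_left _ _) hn'
  have hn'' := le_trans (le_max_right _ _) hn'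
  have hn2 : ⌈2 * T0⌉₊ ≤ n := le_trans (le_max_left _ _) hn''
  have hn''' := le_trans (le_max_right _ _) hn''
  have hn3 : ⌈25 / δ⌉₊ ≤ n := le_trans (le_max_left _ _) hn'''
  have hn4 : ⌈100 + 100 / r0⌉₊ ≤ n := le_trans (le_max_right _ _) hn'''
  have hn1' : (5000 : ℝ) ≤ n := by exact_mod_cast hn1
  have hn2' : 2 * T0 ≤ n := Nat.ceil_le.1 hn2
  have hn3' : 25 / δ ≤ n := Nat.ceil_le.1 hn3
  have hn4' : 100 + 100 / r0 ≤ n := Nat.ceil_le.1 hn4
  clear hn hn' hn'' hn''' hn1 hn2 hn3 hn4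
  intro w hw hw0
  by_contra him
  have hlow := hN0 n hn0 w him hw0
  have hPar : w ∈ Par := hp FF hg n w hw0
  have hPar' : w.re + w.im ^ 2 ≤ 1 / 4 := hPar
  have hnorm : ‖w‖ ^ 2 = w.re ^ 2 + w.im ^ 2 := by
    rw [Complex.sq_norm, Complex.normSq_apply]; ring
  have hE1 : 1 ≤ Real.exp ((n : ℝ) / 5) := Real.one_le_exp (by positivity)
  -- the height
  have hA : Real.exp ((n : ℝ) / 5) ≤ |w.re - 1 / 2| := by
    have h1 : ‖w‖ ^ 2 ≤ (w.re - 1 / 2) ^ 2 := by
      rw [hnorm]; nlinarith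
    have h2 := abs_le_of_sq_le_sq (a := ‖w‖) (b := |w.re - 1 / 2|) (by rwa [sq_abs]) (abs_nonneg _)
    rw [abs_of_nonneg (norm_nonneg _)] at h2
    linarith
  have hre : w.re ≤ 1 / 4 := by nlinarith [sq_nonneg w.im]
  rw [abs_of_nonpos (by linarith)] at hA
  have hAre : w.re ≤ 1 / 2 - Real.exp ((n : ℝ) / 5) := by linarith
  have hre0 : w.re ≤ 0 := by linarith
  set t : ℝ := Real.sqrt (-w.re) with ht
  have htt0 : 0 ≤ t := Real.sqrt_nonneg _
  have ht2 : w.re = -t ^ 2 := by rw [ht, Real.sq_sqrt (by linarith)]; ring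
  have hexpq : Real.exp ((n : ℝ) / 25) ^ 2 + 1 ≤ Real.exp ((n : ℝ) / 5) := by
    have e1 : Real.exp ((n : ℝ) / 25) ^ 2 = Real.exp (2 * n / 25) := by
      rw [← Real.exp_nat_mul]; congr 1; push_cast; ring
    have e2 : Real.exp ((n : ℝ) / 5) = Real.exp (2 * n / 25) * Real.exp (3 * n / 25) := by
      rw [← Real.exp_add]; congr 1; ring
    have e3 : (2 : ℝ) ≤ Real.exp (3 * n / 25) := by
      have := Real.add_one_le_exp (3 * (n : ℝ) / 25)
      linarith
    have e4 : (1 : ℝ) ≤ Real.exp (2 * n / 25) := Real.one_le_exp (by positivity)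
    rw [e1, e2]
    nlinarith
  have hlo : Real.exp ((n : ℝ) / 25) ≤ t := by
    have : Real.exp ((n : ℝ) / 25) ^ 2 ≤ t ^ 2 := by linarith
    exact (abs_le_of_sq_le_sq' this htt0).2
  have hs1 : t ≤ Real.exp (κ * n) := by
    have h1 : |w.re| ≤ Real.exp (2 * κ * n) := (Complex.abs_re_le_norm w).trans hw
    rw [ht2, abs_neg, abs_of_nonneg (sq_nonneg t)] at h1
    have h2 : Real.exp (2 * κ * n) = Real.exp (κ * n) ^ 2 := by
      rw [← Real.exp_nat_mul]; congr 1; push_cast; ring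
    rw [h2] at h1
    exact (abs_le_of_sq_le_sq' h1 (Real.exp_pos _).le).2
  have hexp : 2 * (n : ℝ) + 2 ≤ Real.exp (n / 25) := by
    have h1 := Real.quadratic_le_exp_of_nonneg (x := (n : ℝ) / 25) (by positivity)
    nlinarith
  have htn : 2 * (n : ℝ) + 2 ≤ t := hexp.trans hlo
  have ht0 : 0 < t := by linarith
  have hO1 : (n : ℝ) / 50 ≤ Om t := by
    unfold Om
    have := (Real.le_log_iff_exp_le ht0).2 hlo
    linarith
  have hO2 : Om t ≤ κ * n / 2 := by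
    unfold Om
    have := (Real.log_le_iff_le_exp ht0).2 hs1
    linarith
  set x : ℝ := (1 + δ) * r0 * Om t with hx
  have hO0 : 0 < Om t := by linarith
  have hx0 : 0 < x := by positivity
  have hxn : x ≤ n := by
    have h1 : x ≤ (1 + δ) * r0 * (κ * n / 2) := by
      rw [hx]
      apply mul_le_mul_of_nonneg_left hO2
      positivity
    have h2 : (1 + δ) * r0 * (κ * n / 2) = ((1 + δ) * p) * n := by rw [hp']; ring
    rw [h2] at h1
    nlinarith
  have hmn : ⌈x⌉₊ ≤ n := Nat.ceil_le.2 hxn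
  set m := ⌈x⌉₊ with hm
  have hm1 : x ≤ m := Nat.le_ceil x
  have hm2 : (m : ℝ) < x + 1 := Nat.ceil_lt_add_one hx0.le
  obtain ⟨k, hk⟩ := Nat.exists_eq_add_of_le hmn
  have hkn : (k : ℝ) ≤ n := by
    have : k ≤ n := by omega
    exact_mod_cast this
  rw [hk] at hw0
  obtain ⟨z, s, hz1, hz2, hs0, hzs, hts⟩ := desc hp hg hcir m k w t him hw0 (by linarith) ht2
  have hz2' := abs_le.1 hts
  have hz3 : t / 2 ≤ s := by linarith
  have hz4 : s ≤ 2 * t := by linarith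
  have hz0 : 0 < s := by linarith
  have hlog2 : Real.log 2 ≤ 1 := by
    have := Real.log_two_lt_d9
    linarith
  have hOz1 : Om s ≤ Om t + 1 / 2 := by
    unfold Om
    have h1 := Real.log_le_log hz0 hz4
    rw [Real.log_mul (by norm_num) ht0.ne'] at h1
    linarith
  have hOz2 : Om t - 1 / 2 ≤ Om s := by
    unfold Om
    have h1 := Real.log_le_log (by positivity) hz3
    rw [Real.log_div ht0.ne' (by norm_num)] at h1
    linarith
  have hT : T0 ≤ s := by linarith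
  refine hz1 (hNB s m hT ?_ ?_ z hzs hz2).1
  · -- lower bound
    have h1 : 25 ≤ n * δ := by
      rw [div_le_iff₀ hδ0] at hn3'
      exact hn3'
    have h2 : Om s ≤ (1 + δ) * Om t := by nlinarith
    calc r0 * Om s ≤ r0 * ((1 + δ) * Om t) := mul_le_mul_of_nonneg_left h2 hr0.le
      _ = x := by rw [hx]; ring
      _ ≤ m := hm1
  · -- upper bound
    have h1 : 100 * r0 + 100 ≤ n * r0 := by
      have h2 := mul_le_mul_of_nonneg_right hn4' hr0.le
      have h3 : (100 + 100 / r0) * r0 = 100 * r0 + 100 := by field_simp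
      linarith
    have h4 : 2 * r0 + 2 ≤ r0 * Om t := by nlinarith
    have h5 : x ≤ 3 / 2 * (r0 * Om t) := by
      rw [hx]
      have : 0 < r0 * Om t := by positivity
      nlinarith
    have h6 : r0 * (Om t - 1 / 2) ≤ r0 * Om s := mul_le_mul_of_nonneg_left hOz2 hr0.le
    nlinarith

end Pool.Agent.U762.JF
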