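import Pool.Agent.U762.JF.Pert
import Pool.Agent.H986R2.K4.Spec
import Pool.Agent.H24R2.JP.Spec

set_option autoImplicit false

/-!
# The normalised local situation for `FF` on a vertical line
-/

namespace Pool.Agent.U762.JF

open Complex Filter Topology MeasureTheory Set
open Pool.Agent.H24R2.JP (XX HH Om FF SB1)
open Pool.Agent.H986R2.K4 (QQ ZB S_NORM)

/-- `G z = FF (-t² + 2 i t r z)`. -/
noncomputable def GF (t r : ℝ) (z : ℂ) : ℂ := FF (-(t : ℂ) ^ 2 + 2 * I * t * r * z)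

/-- the square root -/
noncomputable def sg (t r : ℝ) (z : ℂ) : ℂ := (1 - 2 * I * r * z / t) ^ (1 / 2 : ℂ)

/-- the change of variables -/
noncomputable def ph (t r : ℝ) (z : ℂ) : ℂ := I * t * (sg t r z - 1) / r

lemma sg_sq (t r : ℝ) (z : ℂ) : sg t r z ^ 2 = 1 - 2 * I * r * z / t := by
  unfold sg
  rw [← Complex.cpow_nat_mul]
  simp

lemma ph_eq {t r : ℝ} (hr : r ≠ 0) (z : ℂ) : I * t + r * ph t r z = I * t * sg t r z := by
  have : (r : ℂ) ≠ 0 := by exact_mod_cast hr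
  unfold ph
  field_simp
  ring

lemma GF_eq (h : SB1) {t r : ℝ} (ht : t ≠ 0) (hr : r ≠ 0) (z : ℂ) :
    GF t r z = XX (I * t + r * ph t r z) := by
  have ht' : (t : ℂ) ≠ 0 := by exact_mod_cast ht
  rw [ph_eq hr, ← h.2.1, GF]
  congr 1
  rw [mul_pow, mul_pow, I_sq, sg_sq]
  field_simp
  ring

lemma re_sg {t r : ℝ} {z : ℂ} (h : ‖2 * I * r * z / t‖ ≤ 1 / 4) : 0 ≤ (sg t r z).re := by
  unfold sg
  have hne : (1 - 2 * I * r * z / t : ℂ) ≠ 0 := by
    intro h0
    have : (2 * I * r * z / t : ℂ) = 1 := by linear_combination -h0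
    rw [this, norm_one] at h
    norm_num at h
  rw [Complex.cpow_def_of_ne_zero hne, Complex.exp_re]
  apply mul_nonneg (Real.exp_pos _).le
  apply Real.cos_nonneg_of_mem_Icc
  have e : (Complex.log (1 - 2 * I * r * z / t) * (1 / 2)).im =
      (Complex.arg (1 - 2 * I * r * z / t)) / 2 := by
    have : (Complex.log (1 - 2 * I * r * z / t) * (1 / 2 : ℂ)) =
        Complex.log (1 - 2 * I * r * z / t) * ((1 / 2 : ℝ) : ℂ) := by push_cast; ring
    rw [this, Complex.im_mul_ofReal, Complex.log_im]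
    ring
  rw [e]
  have h1 := Complex.neg_pi_lt_arg (1 - 2 * I * r * z / t)
  have h2 := Complex.arg_le_pi (1 - 2 * I * r * z / t)
  constructor <;> linarith

lemma sg_near {t r : ℝ} {z : ℂ} (h : ‖2 * I * r * z / t‖ ≤ 1 / 4) :
    ‖sg t r z - 1‖ ≤ ‖2 * I * r * z / t‖ ∧ 1 ≤ ‖sg t r z + 1‖ := by
  have h0 := re_sg h
  have h1 : 1 ≤ ‖sg t r z + 1‖ := by
    refine le_trans ?_ (Complex.abs_re_le_norm _)
    rw [add_re, one_re, abs_of_nonneg (by linarith)]
    linarith
  refine ⟨?_, h1⟩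
  have e : (sg t r z - 1) * (sg t r z + 1) = -(2 * I * r * z / t) := by
    have := sg_sq t r z
    linear_combination this
  have e2 : ‖sg t r z - 1‖ * ‖sg t r z + 1‖ = ‖2 * I * r * z / t‖ := by
    rw [← norm_mul, e, norm_neg]
  nlinarith [norm_nonneg (sg t r z - 1)]

lemma ph_near {t r q R : ℝ} (ht : 0 < t) (hr : 0 < r) {z : ℂ} (hz : ‖z‖ ≤ R)
    (hq : 2 * r * R / t ≤ q) (hq1 : q ≤ 1 / 4) (hR : 1 ≤ R) :
    HasDerivAt (ph t r) (1 / sg t r z) z ∧ ‖ph t r z - z‖ ≤ 2 * R * q ∧ ‖1 / sg t r z - 1‖ ≤ 2 * R * q := by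
  have ht' : (t : ℂ) ≠ 0 := by exact_mod_cast ht.ne'
  have hr' : (r : ℂ) ≠ 0 := by exact_mod_cast hr.ne'
  have hn : ‖2 * I * r * z / t‖ ≤ q := by
    rw [norm_div, norm_mul, norm_mul, norm_mul, Complex.norm_I, Complex.norm_real, Complex.norm_real,
      Real.norm_eq_abs, Real.norm_eq_abs, abs_of_pos ht, abs_of_pos hr]
    simp only [Complex.norm_ofNat, mul_one]
    refine le_trans ?_ hq
    gcongr
  have hq0 : 0 ≤ q := (norm_nonneg _).trans hn
  obtain ⟨h1, h2⟩ := sg_near (hn.trans hq1)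
  have h1q : ‖sg t r z - 1‖ ≤ q := h1.trans hn
  have hs : 1 / 2 ≤ ‖sg t r z‖ := by
    have := norm_sub_norm_le (1 : ℂ) (sg t r z)
    rw [norm_one, norm_sub_rev] at this
    linarith
  have hs0 : sg t r z ≠ 0 := by
    rw [← norm_pos_iff]; linarith
  refine ⟨?_, ?_, ?_⟩
  · have hne : (1 - 2 * I * r * z / t : ℂ) ≠ 0 := by
      rw [← sg_sq]
      exact pow_ne_zero 2 hs0
    have hsl : (1 - 2 * I * r * z / t : ℂ) ∈ Complex.slitPlane := by
      left
      rw [sub_re, one_re]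
      have := (abs_le.1 ((Complex.abs_re_le_norm _).trans (hn.trans hq1))).2
      linarith
    have d1 : HasDerivAt (fun z : ℂ => 1 - 2 * I * r * z / t) (-(2 * I * r / t)) z := by
      have := (((hasDerivAt_id z).const_mul (2 * I * (r : ℂ))).div_const (t : ℂ)).const_sub 1
      simpa using this
    have d2 := d1.cpow_const (c := 1 / 2) hsl
    have d3 : HasDerivAt (ph t r) (I * t * ((1 / 2 : ℂ) * (1 - 2 * I * r * z / t) ^ ((1 / 2 : ℂ) - 1) *
        (-(2 * I * r / t))) / r) z := by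
      have := ((d2.sub_const 1).const_mul (I * (t : ℂ))).div_const (r : ℂ)
      exact this
    refine d3.congr_deriv ?_
    have e : (1 - 2 * I * r * z / t : ℂ) ^ ((1 / 2 : ℂ) - 1) = 1 / sg t r z := by
      rw [Complex.cpow_sub _ _ hne, Complex.cpow_one]
      show sg t r z / (1 - 2 * I * r * z / t) = _
      rw [← sg_sq]
      field_simp
    rw [e]
    field_simp
    rw [I_sq]
    ring
  · have e : ph t r z - z = z * ((1 - sg t r z) / (sg t r z + 1)) := by
      have h3 : sg t r z + 1 ≠ 0 := by rw [← norm_pos_iff]; linarith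
      have h4 : ph t r z * (sg t r z + 1) = 2 * z := by
        unfold ph
        have := sg_sq t r z
        have h5 : (sg t r z - 1) * (sg t r z + 1) = -(2 * I * r * z / t) := by linear_combination this
        calc I * t * (sg t r z - 1) / r * (sg t r z + 1) = I * t / r * ((sg t r z - 1) * (sg t r z + 1)) := by
              ring
          _ = I * t / r * (-(2 * I * r * z / t)) := by rw [h5]
          _ = -(I ^ 2) * 2 * z := by field_simp
          _ = 2 * z := by rw [I_sq]; ring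
      field_simp
      linear_combination h4
    rw [e, norm_mul, norm_div, norm_sub_rev]
    have h6 : ‖sg t r z - 1‖ / ‖sg t r z + 1‖ ≤ q := by
      rw [div_le_iff₀ (by linarith)]
      nlinarith
    calc ‖z‖ * (‖sg t r z - 1‖ / ‖sg t r z + 1‖) ≤ R * q := by gcongr
      _ ≤ 2 * R * q := by nlinarith
  · have e : 1 / sg t r z - 1 = (1 - sg t r z) / sg t r z := by field_simp
    rw [e, norm_div, norm_sub_rev, div_le_iff₀ (by linarith)]
    calc ‖sg t r z - 1‖ ≤ q := h1q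
      _ ≤ 2 * R * q * (1 / 2) := by nlinarith
      _ ≤ 2 * R * q * ‖sg t r z‖ := by gcongr

/-- The normalised local situation for `FF`. -/
def NF : Prop := ∀ y r0 : ℝ, 0 ≤ y → y ≤ 1 / 2 → ZB y → y < r0 → r0 ≤ 1 →
  ∃ κ : ℝ, 0 < κ ∧ κ ≤ 1 / 2 ∧ ∀ R η : ℝ, 3 ≤ R → 0 < η → ∃ T0 : ℝ, 2 ≤ T0 ∧ ∀ (t : ℝ) (n : ℕ), T0 ≤ t →
    r0 * Om t ≤ n → (n : ℝ) ≤ 2 * r0 * Om t → QQ κ R n η (GF t (n / Om t))

theorem nf (hb : SB1) (hS : S_NORM) : NF := by
  intro y r0 hy0 hy1 hZ hyr hr1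
  obtain ⟨κ, hκ0, hκ1, hN⟩ := hS y r0 hy0 hy1 hZ hyr hr1
  refine ⟨κ / 2, by linarith, by linarith, ?_⟩
  intro R η hR hη
  have hr0 : 0 < r0 := lt_of_le_of_lt hy0 hyr
  set η1 : ℝ := min (min 1 (η / 4)) (κ / (16 * (R + 2))) with hη1
  have hη1p : 0 < η1 := lt_min (lt_min one_pos (by linarith)) (by positivity)
  obtain ⟨T0, hT0, hN⟩ := hN (R + 1) η1 (by linarith) hη1p
  set δ : ℝ := min (κ / 16) (η / 2) with hδ
  have hδ0 : 0 < δ := lt_min (by linarith) (by linarith)
  refine ⟨max (max T0 (Real.exp (2 / r0))) (8 * (R + 1) ^ 2 / δ + 16 * (R + 1)),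
    hT0.trans ((le_max_left _ _).trans (le_max_left _ _)), ?_⟩
  intro t n ht hn1 hn2
  have hT1 : T0 ≤ t := ((le_max_left _ _).trans (le_max_left _ _)).trans ht
  have hT2 : Real.exp (2 / r0) ≤ t := ((le_max_right _ _).trans (le_max_left _ _)).trans ht
  have hT3 : 8 * (R + 1) ^ 2 / δ + 16 * (R + 1) ≤ t := (le_max_right _ _).trans ht
  have ht0 : 0 < t := by linarith
  have hlog : 2 / r0 ≤ Real.log t := (Real.le_log_iff_exp_le ht0).2 hT2
  have hOm : 1 / r0 ≤ Om t := by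
    unfold Om
    have : 2 / r0 = 2 * (1 / r0) := by ring
    linarith
  have hOm0 : 0 < Om t := lt_of_lt_of_le (by positivity) hOm
  have hn0 : 1 ≤ (n : ℝ) := by
    refine le_trans ?_ hn1
    rw [div_le_iff₀ hr0] at hOm
    linarith
  have hn0' : 1 ≤ n := by exact_mod_cast hn0
  set r : ℝ := n / Om t with hr
  have hrp : 0 < r := by positivity
  have hr2 : r ≤ 2 := by
    rw [hr, div_le_iff₀ hOm0]
    nlinarith
  have hQ := hN t n hT1 hn1 hn2
  set q : ℝ := 4 * (R + 1) / t with hq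
  have hq1 : q ≤ 1 / 4 := by
    rw [hq, div_le_iff₀ ht0]
    have : 0 < 8 * (R + 1) ^ 2 / δ := by positivity
    linarith
  have hq2 : 2 * (R + 1) * q ≤ δ := by
    have h1 : 8 * (R + 1) ^ 2 / δ ≤ t := by nlinarith
    rw [div_le_iff₀ hδ0] at h1
    rw [hq]
    have : 2 * (R + 1) * (4 * (R + 1) / t) = 8 * (R + 1) ^ 2 / t := by ring
    rw [this, div_le_iff₀ ht0]
    linarith
  have key := pert (φ := ph t r) (φ' := fun z => 1 / sg t r z) (G := GF t r) hκ0 hκ1 hR le_rfl hη1p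
    ((min_le_left _ _).trans (min_le_left _ _)) hn0' hQ
    (by
      unfold GF
      exact hb.1.comp (by fun_prop))
    (by
      intro z
      unfold GF
      rw [← hb.2.2.1]
      congr 1
      simp only [map_add, map_neg, map_mul, map_pow, Complex.conj_ofReal, Complex.conj_I]
      rw [show (starRingEnd ℂ) (2 : ℂ) = 2 from map_ofNat (starRingEnd ℂ) 2]
      ring)
    hδ0.le (min_le_left _ _)
    (by
      have := min_le_right (min 1 (η / 4)) (κ / (16 * (R + 2)))
      rw [← hη1] at this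
      calc η1 * (R + 2) ≤ κ / (16 * (R + 2)) * (R + 2) := by gcongr
        _ = κ / 16 := by field_simp)
    (by
      intro z hz
      obtain ⟨h1, h2, h3⟩ := ph_near (q := q) (R := R + 1) ht0 hrp hz.le (by
        rw [hq]
        gcongr
        nlinarith) hq1 (by linarith)
      exact ⟨h1, h2.trans hq2, h3.trans hq2, GF_eq hb ht0.ne' hrp.ne' z⟩)
  have hfin : 2 * η1 + δ ≤ η := by
    have h1 : η1 ≤ η / 4 := (min_le_left _ _).trans (min_le_right _ _)
    have h2 : δ ≤ η / 2 := min_le_right _ _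
    linarith
  exact ⟨key.diff, key.symm, fun z h1 h2 => ⟨(key.far z h1 h2).1,
    (key.far z h1 h2).2.trans (mul_le_mul_of_nonneg_right hfin (Nat.cast_nonneg n))⟩, key.near⟩

end Pool.Agent.U762.JF
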