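import Pool.Agent.H986R2.K4.RTa

set_option autoImplicit false

/-!
# The normalised local situation is stable under a small change of variables
-/

namespace Pool.Agent.U762.JF

open Complex Filter Topology MeasureTheory Set
open Pool.Agent.H986R2.K4 (QQ)
open Pool.Agent.H986R2.K4.RTAux (growth)

theorem pert {n : ℕ} {κ R R' η δ : ℝ} {F G φ φ' : ℂ → ℂ} (hκ : 0 < κ) (hκ1 : κ ≤ 1 / 2) (hR : 3 ≤ R)
    (hRR : R + 1 ≤ R') (hη : 0 < η) (hη1 : η ≤ 1) (hn : 1 ≤ n) (hN : QQ κ R' n η F)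
    (hGd : Differentiable ℂ G) (hGs : ∀ z : ℂ, G (-((starRingEnd ℂ) z)) = (starRingEnd ℂ) (G z))
    (hδ0 : 0 ≤ δ) (hδ : δ ≤ κ / 16) (hηR : η * (R + 2) ≤ κ / 16)
    (hφ : ∀ z : ℂ, ‖z‖ < R + 1 → HasDerivAt φ (φ' z) z ∧ ‖φ z - z‖ ≤ δ ∧ ‖φ' z - 1‖ ≤ δ ∧ G z = F (φ z)) :
    QQ (κ / 2) R n (2 * η + δ) G := by
  have hn0 : (0 : ℝ) < n := by exact_mod_cast hn
  have hre : ∀ z : ℂ, ‖z‖ ≤ R → |(φ z).re - z.re| ≤ δ ∧ ‖φ z‖ ≤ R' := by
    intro z hz
    obtain ⟨-, h2, -, -⟩ := hφ z (by linarith)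
    constructor
    · have := abs_re_le_norm (φ z - z)
      rw [sub_re] at this
      linarith
    · have h3 : ‖φ z‖ ≤ ‖φ z - z‖ + ‖z‖ := by
        have := norm_add_le (φ z - z) z
        rwa [sub_add_cancel] at this
      linarith
  have h1R : ‖(1 : ℂ)‖ ≤ R := by simp; linarith
  have hsymF : ∀ w : ℂ, ‖F (-((starRingEnd ℂ) w))‖ = ‖F w‖ := by
    intro w
    rw [hN.symm w, Complex.norm_conj]
  refine ⟨hGd, hGs, ?_, ?_⟩
  · intro z hz1 hz2
    obtain ⟨h1, h2, h3, h4⟩ := hφ z (by linarith)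
    obtain ⟨h5, h6⟩ := hre z hz2
    have h7 := abs_le.1 h5
    have h8 : 1 - κ ≤ (φ z).re := by linarith
    obtain ⟨h9, h10⟩ := hN.far _ h8 h6
    refine ⟨by rw [h4]; exact h9, ?_⟩
    have hev : G =ᶠ[𝓝 z] fun z => F (φ z) := by
      have : {w : ℂ | ‖w‖ < R + 1} ∈ 𝓝 z :=
        (isOpen_lt continuous_norm continuous_const).mem_nhds (by show ‖z‖ < R + 1; linarith)
      filter_upwards [this] with w hw
      exact (hφ w hw).2.2.2
    have hd : deriv G z = deriv F (φ z) * φ' z := by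
      rw [hev.deriv_eq]
      exact (HasDerivAt.comp z (hN.diff _).hasDerivAt h1).deriv
    have e : logDeriv G z - n = φ' z * (logDeriv F (φ z) - n) + (φ' z - 1) * n := by
      rw [logDeriv_apply, logDeriv_apply, hd, h4]
      ring
    have hφ'n : ‖φ' z‖ ≤ 1 + δ := by
      have := norm_add_le (φ' z - 1) 1
      rw [sub_add_cancel, norm_one] at this
      linarith
    rw [e]
    calc ‖φ' z * (logDeriv F (φ z) - n) + (φ' z - 1) * n‖
        ≤ ‖φ' z‖ * ‖logDeriv F (φ z) - n‖ + ‖φ' z - 1‖ * n := by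
          refine (norm_add_le _ _).trans ?_
          rw [norm_mul, norm_mul, Complex.norm_natCast]
      _ ≤ (1 + δ) * (η * n) + δ * n := by gcongr
      _ ≤ (2 * η + δ) * n := by
          have : δ * (η * n) ≤ 1 * (η * n) := by
            apply mul_le_mul_of_nonneg_right _ (by positivity)
            linarith
          nlinarith
  · intro z hz1 hz2
    obtain ⟨h1, h2, h3, h4⟩ := hφ z (by linarith)
    obtain ⟨h5, h6⟩ := hre z hz2
    have h7 := abs_le.1 h5
    have h8 := abs_le.1 hz1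
    -- lower bound at 1
    obtain ⟨a1, a2, a3, a4⟩ := hφ 1 (by linarith)
    obtain ⟨a5, a6⟩ := hre 1 h1R
    have a7 := abs_le.1 a5
    rw [one_re] at a7
    have hG1 : ‖F 1‖ ≤ ‖G 1‖ * Real.exp (2 * δ * n) := by
      have g := growth hη hn hN (w := 1) (w' := φ 1) (by simp; linarith) (by linarith) (by linarith) a6
      rw [one_re, ← a4] at g
      refine g.trans ?_
      gcongr
      have b1 : (n : ℝ) * (1 - (φ 1).re) ≤ n * δ := by gcongr; linarith
      have b2 : η * n * ‖1 - φ 1‖ ≤ 1 * n * δ := by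
        rw [norm_sub_rev]; gcongr
      linarith
    -- upper bound at z
    have hw : ∀ w : ℂ, ‖w‖ ≤ R' → ‖w - 1‖ ≤ R + 2 → |w.re| ≤ 1 - κ / 2 + δ → 0 ≤ w.re →
        ‖F w‖ ≤ ‖F 1‖ * Real.exp (-(3 / 8 * κ * n)) := by
      intro w hw1 hw1' hw2 hw3
      rw [abs_of_nonneg hw3] at hw2
      rcases le_or_gt w.re (1 - κ) with hc | hc
      · have := hN.near w (by rwa [abs_of_nonneg hw3]) hw1
        refine this.trans ?_
        gcongr
        nlinarith
      · have g := growth hη hn hN (w := w) (w' := 1) hc.le hw1 (by simp; linarith) (by simp; linarith)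
        refine g.trans ?_
        gcongr
        rw [one_re]
        have b1 : (n : ℝ) * (w.re - 1) ≤ n * (-(κ / 2) + δ) := by gcongr; linarith
        have b2 : η * n * ‖w - 1‖ ≤ n * (κ / 16) := by
          calc η * n * ‖w - 1‖ ≤ η * n * (R + 2) := by gcongr
            _ = n * (η * (R + 2)) := by ring
            _ ≤ n * (κ / 16) := by gcongr
        have b3 : (n : ℝ) * δ ≤ n * (κ / 16) := by gcongr
        nlinarith
    have hz3 : ‖F (φ z)‖ ≤ ‖F 1‖ * Real.exp (-(3 / 8 * κ * n)) := by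
      have hd : ‖φ z‖ ≤ R + δ := by
        have := norm_add_le (φ z - z) z
        rw [sub_add_cancel] at this
        linarith
      rcases le_total 0 (φ z).re with hs | hs
      · refine hw _ h6 ?_ ?_ hs
        · have := norm_sub_le (φ z) 1
          rw [norm_one] at this
          linarith
        · rw [abs_le]; constructor <;> linarith
      · rw [← hsymF]
        refine hw _ ?_ ?_ ?_ ?_
        · rw [norm_neg, Complex.norm_conj]; exact h6
        · have := norm_sub_le (-((starRingEnd ℂ) (φ z))) 1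
          rw [norm_one, norm_neg, Complex.norm_conj] at this
          linarith
        · rw [neg_re, conj_re, abs_neg, abs_le]; constructor <;> linarith
        · rw [neg_re, conj_re]; linarith
    rw [h4]
    calc ‖F (φ z)‖ ≤ ‖F 1‖ * Real.exp (-(3 / 8 * κ * n)) := hz3
      _ ≤ (‖G 1‖ * Real.exp (2 * δ * n)) * Real.exp (-(3 / 8 * κ * n)) := by gcongr
      _ = ‖G 1‖ * Real.exp (2 * δ * n + -(3 / 8 * κ * n)) := by rw [Real.exp_add]; ring
      _ ≤ ‖G 1‖ * Real.exp (-(κ / 2 / 2 * n)) := by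
          gcongr
          nlinarith

end Pool.Agent.U762.JF
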