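import Pool.Agent.U762.JF.Norm
import Pool.Agent.H986R2.K4.Win

set_option autoImplicit false

/-!
# Zeros of the derivatives of `FF` on a vertical line
-/

namespace Pool.Agent.U762.JF

open Complex Filter Topology MeasureTheory Set
open Pool.Agent.H24R2.JP (XX HH Om FF SB1 SPar SGood Par)
open Pool.Agent.H986R2.K4 (QQ ZB S_NORM S_AW S_NL)
open Pool.Agent.H986R2.K4.WinAux (scale mono)

/-- No non-real or multiple zeros on the line `Re w = -t²` for `n ∈ [r0 Om t, 2 r0 Om t]`. -/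
def NoBadF (r0 : ℝ) : Prop := ∃ T0 : ℝ, 2 ≤ T0 ∧ ∀ (t : ℝ) (n : ℕ), T0 ≤ t →
  r0 * Om t ≤ n → (n : ℝ) ≤ 2 * r0 * Om t → ∀ w : ℂ, w.re = -t ^ 2 → iteratedDeriv n FF w = 0 →
    w.im = 0 ∧ iteratedDeriv (n + 1) FF w ≠ 0

theorem winF (hb : SB1) (hp : SPar) (hg : SGood) (h1 : NF) (h2 : S_AW) (h3 : S_NL) :
    ∀ y r0 : ℝ, 0 ≤ y → y ≤ 1 / 2 → ZB y → y < r0 → r0 ≤ 1 → NoBadF r0 := by
  intro y r0 hy0 hy1 hZ hyr hr1
  have hr0 : 0 < r0 := lt_of_le_of_lt hy0 hyr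
  obtain ⟨κ, hκ0, hκ1, hN⟩ := h1 y r0 hy0 hy1 hZ hyr hr1
  set R : ℝ := 1 / r0 + 3 with hRdef
  have hR : 3 ≤ R := by
    have : 0 < 1 / r0 := by positivity
    linarith
  obtain ⟨κ1, η1, n1, hκ10, hκ1κ, hη1, H3⟩ := h3 κ R hκ0 hκ1 hR
  obtain ⟨η2, n2, hη2, H2⟩ := h2 κ R κ1 hκ0 hκ1 hR hκ10 hκ1κ
  obtain ⟨T0, hT0, H1⟩ := hN R (min η1 η2) hR (lt_min hη1 hη2)
  refine ⟨max T0 (Real.exp (2 * (max n1 n2 : ℕ) / r0)), hT0.trans (le_max_left _ _), ?_⟩
  intro t n ht hn1 hn2 w hw hw0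
  have htT0 : T0 ≤ t := (le_max_left _ _).trans ht
  have htE : Real.exp (2 * (max n1 n2 : ℕ) / r0) ≤ t := (le_max_right _ _).trans ht
  have ht2 : 2 ≤ t := hT0.trans htT0
  have ht0 : 0 < t := by linarith
  have hlog : 2 * ((max n1 n2 : ℕ) : ℝ) / r0 ≤ Real.log t :=
    (Real.le_log_iff_exp_le (by linarith)).2 htE
  have hlog0 : 0 < Real.log t := Real.log_pos (by linarith)
  have hOm : 0 < Om t := by unfold Om; positivity
  have hnn : ((max n1 n2 : ℕ) : ℝ) ≤ n := by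
    refine le_trans ?_ hn1
    rw [div_le_iff₀ hr0] at hlog
    unfold Om
    linarith
  have hnn' : max n1 n2 ≤ n := by exact_mod_cast hnn
  have hn0 : (0 : ℝ) < n := lt_of_lt_of_le (by positivity) hn1
  set r : ℝ := n / Om t with hr
  have hrpos : 0 < r := by positivity
  have hrr0 : r0 ≤ r := by rw [hr, le_div_iff₀ hOm]; exact hn1
  have hrc : (r : ℂ) ≠ 0 := by exact_mod_cast hrpos.ne'
  have htc : (t : ℂ) ≠ 0 := by exact_mod_cast ht0.ne'
  have hQ := H1 t n htT0 hn1 hn2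
  set x : ℝ := w.im / (2 * t * r) with hx
  have hc0 : (2 * I * t * r : ℂ) ≠ 0 := by
    simp [hrc, htc]
  have hsx : (-(t : ℂ) ^ 2) + (2 * I * t * r : ℂ) * (x : ℂ) = w := by
    have e1 : (2 * I * t * r : ℂ) * (x : ℂ) = (w.im : ℂ) * I := by
      rw [hx]; push_cast; field_simp
    rw [e1]
    apply Complex.ext
    · rw [← ofReal_pow, ← ofReal_neg, add_re, ofReal_re, mul_I_re, ofReal_im, neg_zero, add_zero, hw]
    · rw [← ofReal_pow, ← ofReal_neg, add_im, ofReal_im, mul_I_im, ofReal_re, zero_add]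
  have hder : ∀ m : ℕ, iteratedDeriv m (GF t r) (x : ℂ) =
      (2 * I * t * r : ℂ) ^ m * iteratedDeriv m FF w := by
    intro m
    have := scale hb.1 (-(t : ℂ) ^ 2) (2 * I * t * r) m (x : ℂ)
    rw [hsx] at this
    exact this
  have hzero : iteratedDeriv n (GF t r) (x : ℂ) = 0 := by
    rw [hder, hw0, mul_zero]
  have hPar : w ∈ Par := hp FF hg n w hw0
  have hPar' : w.re + w.im ^ 2 ≤ 1 / 4 := hPar
  rw [hw] at hPar'
  have him : |w.im| ≤ t + 1 / 2 := by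
    refine abs_le_of_sq_le_sq ?_ (by linarith)
    nlinarith
  by_cases hc : κ1 ≤ |x|
  · exfalso
    refine H2 n _ ((le_max_right _ _).trans hnn') (mono (min_le_right _ _) hQ) x hc ?_ hzero
    have e1 : |x| = |w.im| / (2 * t * r) := by rw [hx, abs_div, abs_of_pos (by positivity : 0 < 2 * t * r)]
    rw [e1, div_le_iff₀ (by positivity)]
    have e2 : (1 : ℝ) ≤ 1 / r0 * r := by
      rw [div_mul_eq_mul_div, one_mul, le_div_iff₀ (by positivity)]
      linarith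
    have e3 : (R - 2) * (2 * t * r) = 2 * t * (1 / r0 * r) + 2 * t * r := by rw [hRdef]; ring
    rw [e3]
    nlinarith [mul_pos ht0 hrpos]
  · push Not at hc
    obtain ⟨h5, h6⟩ := H3 n _ ((le_max_left _ _).trans hnn') (mono (min_le_left _ _) hQ) x hc.le
      hzero
    constructor
    · rw [hx] at h5
      exact (div_eq_zero_iff.1 h5).resolve_right (by positivity)
    · intro h7
      apply h6
      rw [hder, h7, mul_zero]

end Pool.Agent.U762.JF
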